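import Pool.Agent.Y223.G.Stm3

/-!
# Regularity of the products of charts of forms
-/

set_option autoImplicit false

namespace Pool.Agent.Y177.G

open Pool.Agent.Y223.G

section lk

variable {K : Type} [Field K]

/-- The localization of a subring of a field. -/
def lk (B : Subring K) (x : K) (hx : x ∈ B) : Subring K where
  carrier := {f | ∃ n : ℕ, x ^ n * f ∈ B}
  mul_mem' := by
    rintro f g ⟨n, hn⟩ ⟨m, hm⟩
    refine ⟨n + m, ?_⟩
    have : x ^ (n + m) * (f * g) = (x ^ n * f) * (x ^ m * g) := by ring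
    rw [this]
    exact B.mul_mem hn hm
  one_mem' := ⟨0, by rw [pow_zero, one_mul]; exact B.one_mem⟩
  add_mem' := by
    rintro f g ⟨n, hn⟩ ⟨m, hm⟩
    refine ⟨n + m, ?_⟩
    have : x ^ (n + m) * (f + g) = x ^ m * (x ^ n * f) + x ^ n * (x ^ m * g) := by ring
    rw [this]
    exact B.add_mem (B.mul_mem (B.pow_mem hx _) hn) (B.mul_mem (B.pow_mem hx _) hm)
  zero_mem' := ⟨0, by rw [mul_zero]; exact B.zero_mem⟩
  neg_mem' := by
    rintro f ⟨n, hn⟩
    exact ⟨n, by rw [mul_neg]; exact B.neg_mem hn⟩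

lemma mem_lk {B : Subring K} {x : K} {hx : x ∈ B} {f : K} :
    f ∈ lk B x hx ↔ ∃ n : ℕ, x ^ n * f ∈ B := Iff.rfl

lemma le_lk (B : Subring K) (x : K) (hx : x ∈ B) : B ≤ lk B x hx :=
  fun f hf => ⟨0, by rw [pow_zero, one_mul]; exact hf⟩

/-- The algebra structure of the localization. -/
@[reducible] def lkAlg (B : Subring K) {x : K} (hx : x ∈ B) : Algebra B (lk B x hx) :=
  (Subring.inclusion (le_lk B x hx)).toAlgebra

theorem isLocalization_lk (B : Subring K) {x : K} (hx : x ∈ B) (hx0 : x ≠ 0) :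
    @IsLocalization.Away B _ (⟨x, hx⟩ : B) (lk B x hx) _ (lkAlg B hx) := by
  let _ := lkAlg B hx
  have hmap : ∀ s : B, ((algebraMap B (lk B x hx) s : lk B x hx) : K) = s := fun s => rfl
  let x' : B := ⟨x, hx⟩
  refine IsLocalization.Away.mk x' ?_ ?_ ?_
  · refine IsUnit.of_mul_eq_one ⟨x⁻¹, ⟨1, by rw [pow_one, mul_inv_cancel₀ hx0]; exact B.one_mem⟩⟩ ?_
    apply Subtype.ext
    exact mul_inv_cancel₀ hx0
  · rintro ⟨f, n, hn⟩
    refine ⟨n, ⟨x ^ n * f, hn⟩, ?_⟩
    apply Subtype.ext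
    change f * (algebraMap B (lk B x hx) x' : K) ^ n = x ^ n * f
    rw [hmap, mul_comm]
  · intro a b hab
    refine ⟨0, ?_⟩
    have h3 : ((algebraMap B (lk B x hx) a : lk B x hx) : K) =
      ((algebraMap B (lk B x hx) b : lk B x hx) : K) := congrArg Subtype.val hab
    rw [hmap, hmap] at h3
    rw [Subtype.ext h3]

theorem reg_lk {B : Subring K} (hB : IsRegularRing B) {x : K} (hx : x ∈ B) (hx0 : x ≠ 0) :
    IsRegularRing (lk B x hx) := by
  let _ := lkAlg B hx
  have h1 : IsLocalization.Away (⟨x, hx⟩ : B) (lk B x hx) := isLocalization_lk B hx hx0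
  exact regular_of_isLocalization (Submonoid.powers (⟨x, hx⟩ : B))

theorem noeth_lk {B : Subring K} (hB : IsNoetherianRing B) {x : K} (hx : x ∈ B) (hx0 : x ≠ 0) :
    IsNoetherianRing (lk B x hx) := by
  let _ := lkAlg B hx
  have h1 : IsLocalization.Away (⟨x, hx⟩ : B) (lk B x hx) := isLocalization_lk B hx hx0
  exact IsLocalization.isNoetherianRing (Submonoid.powers (⟨x, hx⟩ : B)) _ hB

/-- A subring of a field is regular if it is locally regular. -/
theorem reg_of_cover (C : Subring K) (hN : IsNoetherianRing C)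
    (h : ∀ Q : Ideal C, Q.IsPrime → ∃ (u : K) (hu : u ∈ C), (⟨u, hu⟩ : C) ∉ Q ∧
      IsRegularRing (lk C u hu)) : IsRegularRing C := by
  rw [isRegularRing_iff]
  intro Q hQ
  obtain ⟨u, hu, huQ, hreg⟩ := h Q hQ
  have hu0 : u ≠ 0 := by
    rintro rfl
    exact huQ Q.zero_mem
  let _ := lkAlg C hu
  have h1 : IsLocalization.Away (⟨u, hu⟩ : C) (lk C u hu) := isLocalization_lk C hu hu0
  obtain ⟨P, hP, rfl⟩ : ∃ P : Ideal (lk C u hu), P.IsPrime ∧
      P.comap (algebraMap C (lk C u hu)) = Q := by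
    have hd : Disjoint ((Submonoid.powers (⟨u, hu⟩ : C) : Submonoid C) : Set C) (Q : Set C) := by
      rw [Set.disjoint_left]
      rintro _ ⟨n, rfl⟩ hmem
      exact huQ (hQ.mem_of_pow_mem n hmem)
    refine ⟨Q.map (algebraMap C (lk C u hu)), ?_, ?_⟩
    · exact IsLocalization.isPrime_of_isPrime_disjoint (Submonoid.powers (⟨u, hu⟩ : C)) _ Q hQ hd
    · exact IsLocalization.under_map_of_isPrime_disjoint (Submonoid.powers (⟨u, hu⟩ : C)) _ hQ hd
  have h2 : IsLocalization.AtPrime (Localization.AtPrime P)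
      (P.comap (algebraMap C (lk C u hu))) :=
    IsLocalization.isLocalization_isLocalization_atPrime_isLocalization
      (Submonoid.powers (⟨u, hu⟩ : C)) (Localization.AtPrime P) P
  have h3 : IsRegularLocalRing (Localization.AtPrime P) := inferInstance
  exact IsRegularLocalRing.of_ringEquiv
    (IsLocalization.algEquiv (P.comap (algebraMap C (lk C u hu))).primeCompl
      (Localization.AtPrime P)
      (Localization.AtPrime (P.comap (algebraMap C (lk C u hu))))).toRingEquiv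

theorem lk_eq (B C : Subring K) (u v s : K) (hu : u ∈ C) (hv : v ∈ B) (hs : s ∈ B)
    (hs' : s⁻¹ ∈ C) (hs0 : s ≠ 0) (hvu : v * u = 1) (h1 : ∀ y ∈ B, y ∈ lk C u hu)
    (h2 : ∀ c ∈ C, c ∈ lk B (s * v) (B.mul_mem hs hv)) :
    lk C u hu = lk B (s * v) (B.mul_mem hs hv) := by
  ext x
  constructor
  · rintro ⟨n, hn⟩
    obtain ⟨N, hN⟩ := h2 _ hn
    refine ⟨N + n, ?_⟩
    have e : (s * v) ^ (N + n) * x = s ^ n * (v ^ n * v ^ n * ((s * v) ^ N * (u ^ n * x))) := by
      have : (s * v) ^ (N + n) * x = (v * u) ^ n * ((s * v) ^ (N + n) * x) := by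
        rw [hvu, one_pow, one_mul]
      rw [this]
      ring
    rw [e]
    exact B.mul_mem (B.pow_mem hs _) (B.mul_mem (B.mul_mem (B.pow_mem hv _) (B.pow_mem hv _)) hN)
  · rintro ⟨n, hn⟩
    obtain ⟨N, hN⟩ := h1 _ hn
    refine ⟨N + n, ?_⟩
    have e : u ^ (N + n) * x = u ^ n * (u ^ n * (s⁻¹ ^ n * (u ^ N * ((s * v) ^ n * x)))) := by
      have h3 : s⁻¹ * s = 1 := inv_mul_cancel₀ hs0
      have : u ^ (N + n) * x = (v * u) ^ n * ((s⁻¹ * s) ^ n * (u ^ (N + n) * x)) := by
        rw [hvu, h3, one_pow, one_mul, one_mul]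
      rw [this]
      ring
    rw [e]
    exact C.mul_mem (C.pow_mem hu _) (C.mul_mem (C.pow_mem hu _)
      (C.mul_mem (C.pow_mem hs' _) hN))

lemma adj_le {O : Type} [CommRing O] [Algebra O K] (S : Set K) (D : Subring K)
    (h0 : ∀ o : O, algebraMap O K o ∈ D) (h : ∀ x ∈ S, x ∈ D) :
    ∀ x ∈ Algebra.adjoin O S, x ∈ D := by
  intro x hx
  induction hx using Algebra.adjoin_induction with
  | mem x hx => exact h x hx
  | algebraMap r => exact h0 r
  | add x y _ _ hx hy => exact D.add_mem hx hy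
  | mul x y _ _ hx hy => exact D.mul_mem hx hy

end lk

section forms

variable {K : Type} [Field K] {m : ℕ}

lemma MN_fin (z : Fin (m + 1) → K) (d : ℕ) : (MN z d).Finite := by
  classical
  refine ((Finset.piAntidiag (Finset.univ : Finset (Fin (m + 1))) d).finite_toSet.image
    (fun a : Fin (m + 1) → ℕ => ∏ i, z i ^ a i)).subset ?_
  rintro x ⟨a, ha, rfl⟩
  exact ⟨a, by simp [ha], rfl⟩

variable {k : Type} [CommRing k] [Algebra k K]

lemma itk (τ : K ≃ₐ[k] K) (i : ℕ) (x : K) : τ^[i] x = (τ ^ i) x := by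
  induction i with
  | zero => rfl
  | succ n ih => rw [Function.iterate_succ_apply', ih, pow_succ']; rfl

lemma MN_it (τ : K ≃ₐ[k] K) (z : Fin (m + 1) → K) (d i : ℕ) (x : K) :
    x ∈ MN (fun j => τ^[i] (z j)) d ↔ ∃ y ∈ MN z d, x = τ^[i] y := by
  constructor
  · rintro ⟨a, ha, rfl⟩
    refine ⟨_, ⟨a, ha, rfl⟩, ?_⟩
    simp only [itk, map_prod, map_pow]
  · rintro ⟨_, ⟨a, ha, rfl⟩, rfl⟩
    refine ⟨a, ha, ?_⟩
    simp only [itk, map_prod, map_pow]

/-- The generators of the product of the charts of a form. -/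
def GG (τ : K ≃ₐ[k] K) (p : ℕ) (z : Fin (m + 1) → K) (d : ℕ) (F : K) : Set K :=
  {y | ∃ i : Fin p, ∃ x ∈ MN z d, y = τ^[i] (x / F)}

lemma GG_fin (τ : K ≃ₐ[k] K) (p : ℕ) (z : Fin (m + 1) → K) (d : ℕ) (F : K) :
    (GG τ p z d F).Finite := by
  have h : GG τ p z d F ⊆ ⋃ i : Fin p, (fun x => τ^[i] (x / F)) '' MN z d := by
    rintro y ⟨i, x, hx, rfl⟩
    exact Set.mem_iUnion.2 ⟨i, x, hx, rfl⟩
  exact (Set.finite_iUnion fun i => (MN_fin z d).image _).subset h

lemma CC_eq (τ : K ≃ₐ[k] K) (p : ℕ) (z : Fin (m + 1) → K) (d : ℕ) (F : K) (O : Type)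
    [CommRing O] [Algebra O K] :
    CC (fun i => AF O (fun j => τ^[i] (z j)) d (τ^[i] F)) p = Algebra.adjoin O (GG τ p z d F) := by
  apply le_antisymm
  · unfold CC
    refine iSup_le fun i => ?_
    refine Algebra.adjoin_mono ?_
    rintro y ⟨x, hx, rfl⟩
    obtain ⟨x', hx', rfl⟩ := (MN_it τ z d i x).1 hx
    exact ⟨i, x', hx', by simp only [itk, map_div₀]⟩
  · rw [Algebra.adjoin_le_iff]
    rintro y ⟨i, x, hx, rfl⟩
    refine le_CC (fun i => AF O (fun j => τ^[i] (z j)) d (τ^[i] F)) i.2 ?_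
    refine Algebra.subset_adjoin ⟨τ^[i] x, (MN_it τ z d i _).2 ⟨x, hx, rfl⟩, ?_⟩
    simp only [itk, map_div₀]

variable {O : Type} [CommRing O] [Algebra k O] [Algebra O K] [IsScalarTower k O K]

lemma O_mem_OL (s : k) (o : O) : algebraMap O K o ∈ OL O (K := K) s := ⟨0, o, by simp⟩

lemma inv_mem_OL (s : k) (hs : algebraMap k K s ≠ 0) :
    (algebraMap k K s)⁻¹ ∈ OL O (K := K) s :=
  ⟨1, 1, by rw [pow_one, mul_inv_cancel₀ hs, map_one]⟩

/-- Fractions of forms are in the chart: the `k`-span. -/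
lemma span_mem (τ : K ≃ₐ[k] K) (i : ℕ) (z : Fin (m + 1) → K) (d : ℕ) (y : K) (D : Subring K)
    (hk : ∀ c : k, algebraMap k K c ∈ D) (h : ∀ x ∈ MN z d, τ^[i] (x / y) ∈ D) (F : K)
    (hF : F ∈ FS k z d) : τ^[i] (F / y) ∈ D := by
  unfold FS at hF
  induction hF using Submodule.span_induction with
  | mem x hx => exact h x hx
  | zero => rw [zero_div, itk, map_zero]; exact D.zero_mem
  | add a b _ _ ha hb => rw [add_div, itk, map_add, ← itk, ← itk]; exact D.add_mem ha hb
  | smul r x _ hx =>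
    have e : τ^[i] (r • x / y) = algebraMap k K r * τ^[i] (x / y) := by
      rw [itk, itk, Algebra.smul_def, mul_div_assoc, map_mul, AlgEquiv.commutes]
    rw [e]
    exact D.mul_mem (hk r) hx

lemma exists_notMem (τ : K ≃ₐ[k] K) (i : ℕ) (z : Fin (m + 1) → K) (d : ℕ) (hd : 1 ≤ d) (F : K)
    (hF : F ∈ FS k z d) (hF0 : F ≠ 0) (C : Subring K) (hk : ∀ c : k, algebraMap k K c ∈ C)
    (h : ∀ x ∈ MN z d, τ^[i] (x / F) ∈ C) (Q : Ideal C) (hQ : Q.IsPrime) :
    ∃ j, ∀ h : τ^[i] (z j ^ d / F) ∈ C, (⟨_, h⟩ : C) ∉ Q := by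
  classical
  by_contra hcon
  push Not at hcon
  have h1 : ∀ x ∈ MN z d, ∃ h : τ^[i] (x / F) ∈ C, (⟨_, h⟩ : C) ∈ Q := by
    intro x hx
    refine ⟨h x hx, ?_⟩
    choose g hg using hcon
    refine hQ.mem_of_pow_mem d ?_
    obtain ⟨a, ha, hxa⟩ := hx
    have e : (⟨τ^[i] (x / F), h _ ⟨a, ha, hxa⟩⟩ : C) ^ d =
        ∏ j, (⟨τ^[i] (z j ^ d / F), g j⟩ : C) ^ a j := by
      apply Subtype.ext
      rw [SubmonoidClass.coe_pow, SubmonoidClass.coe_finsetProd]
      simp only [SubmonoidClass.coe_pow, itk, ← map_pow, ← map_prod]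
      congr 1
      simp only [div_pow, Finset.prod_div_distrib, Finset.prod_pow_eq_pow_sum, ha]
      rw [hxa, ← Finset.prod_pow]
      congr 1
      refine Finset.prod_congr rfl fun j _ => ?_
      rw [← pow_mul, ← pow_mul, mul_comm]
    rw [e]
    obtain ⟨j0, hj0⟩ : ∃ j, a j ≠ 0 := by
      by_contra hc
      push Not at hc
      rw [Finset.sum_eq_zero fun j _ => hc j] at ha
      omega
    rw [← Finset.mul_prod_erase _ _ (Finset.mem_univ j0)]
    exact Q.mul_mem_right _ (Ideal.pow_mem_of_mem Q (hg j0) _ (Nat.pos_of_ne_zero hj0))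
  have h2 : ∀ G ∈ FS k z d, ∃ h : τ^[i] (G / F) ∈ C, (⟨_, h⟩ : C) ∈ Q := by
    intro G hG
    unfold FS at hG
    induction hG using Submodule.span_induction with
    | mem x hx => exact h1 x hx
    | zero =>
      have e : τ^[i] ((0 : K) / F) = 0 := by rw [zero_div, itk, map_zero]
      refine ⟨by rw [e]; exact C.zero_mem, ?_⟩
      have e' : (⟨τ^[i] ((0 : K) / F), by rw [e]; exact C.zero_mem⟩ : C) = 0 := Subtype.ext e
      rw [e']
      exact Q.zero_mem
    | add a b _ _ ha hb =>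
      obtain ⟨h1, h1'⟩ := ha
      obtain ⟨h2, h2'⟩ := hb
      have e : τ^[i] ((a + b) / F) = τ^[i] (a / F) + τ^[i] (b / F) := by
        rw [add_div, itk, map_add, ← itk, ← itk]
      refine ⟨by rw [e]; exact C.add_mem h1 h2, ?_⟩
      have e' : (⟨τ^[i] ((a + b) / F), by rw [e]; exact C.add_mem h1 h2⟩ : C) =
        ⟨_, h1⟩ + ⟨_, h2⟩ := Subtype.ext e
      rw [e']
      exact Q.add_mem h1' h2'
    | smul r x _ hx =>
      obtain ⟨h1, h1'⟩ := hx
      have e : τ^[i] (r • x / F) = algebraMap k K r * τ^[i] (x / F) := by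
        rw [itk, itk, Algebra.smul_def, mul_div_assoc, map_mul, AlgEquiv.commutes]
      refine ⟨by rw [e]; exact C.mul_mem (hk r) h1, ?_⟩
      have e' : (⟨τ^[i] (r • x / F), by rw [e]; exact C.mul_mem (hk r) h1⟩ : C) =
        ⟨_, hk r⟩ * ⟨_, h1⟩ := Subtype.ext e
      rw [e']
      exact Q.mul_mem_left _ h1'
  obtain ⟨h3, h3'⟩ := h2 F hF
  apply hQ.ne_top
  rw [Ideal.eq_top_iff_one]
  have e : (1 : C) = ⟨τ^[i] (F / F), h3⟩ := by
    apply Subtype.ext
    change (1 : K) = τ^[i] (F / F)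
    rw [div_self hF0, itk, map_one]
  rw [e]
  exact h3'

/-- **Regularity of the products of charts of forms.** -/
theorem t_REGAF : S_REGAF := by
  intro k O K _ _ _ _ _ _ _ _ s hs p τ m z hz hreg d F hd hF hF0
  classical
  rw [CC_eq]
  set C := Algebra.adjoin (OL O (K := K) s) (GG τ p z d F) with hC
  change IsRegularRing C.toSubring
  have hOL : ∀ x ∈ OL O (K := K) s, x ∈ C.toSubring := fun x hx => C.algebraMap_mem ⟨x, hx⟩
  have hO : ∀ o : O, algebraMap O K o ∈ C.toSubring := fun o => hOL _ (O_mem_OL s o)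
  have hk : ∀ c : k, algebraMap k K c ∈ C.toSubring := fun c => by
    rw [IsScalarTower.algebraMap_apply k O K]; exact hO _
  have hG : ∀ i < p, ∀ x ∈ MN z d, τ^[i] (x / F) ∈ C.toSubring := fun i hi x hx =>
    Algebra.subset_adjoin ⟨⟨i, hi⟩, x, hx, rfl⟩
  have hs' : (algebraMap k K s)⁻¹ ∈ C.toSubring := hOL _ (inv_mem_OL s hs)
  have hN : IsNoetherianRing C.toSubring := by
    set C' := Algebra.adjoin O (GG τ p z d F) with hC'
    have hft : Algebra.FiniteType O C' := by
      rw [← Subalgebra.fg_iff_finiteType]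
      exact ⟨(GG_fin τ p z d F).toFinset, by rw [Set.Finite.coe_toFinset]⟩
    have hN' : IsNoetherianRing C'.toSubring := Algebra.FiniteType.isNoetherianRing O C'
    have hO' : ∀ o : O, algebraMap O K o ∈ C'.toSubring := fun o => C'.algebraMap_mem o
    have hsC' : algebraMap k K s ∈ C'.toSubring := by
      rw [IsScalarTower.algebraMap_apply k O K]; exact hO' _
    have e : lk C'.toSubring (algebraMap k K s) hsC' = C.toSubring := by
      apply le_antisymm
      · rintro x ⟨n, hn⟩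
        have h1 : algebraMap k K s ^ n * x ∈ C.toSubring :=
          adj_le _ C.toSubring hO (fun y hy => Algebra.subset_adjoin hy) _ hn
        have h2 : x = (algebraMap k K s)⁻¹ ^ n * (algebraMap k K s ^ n * x) := by
          rw [← mul_assoc, ← mul_pow, inv_mul_cancel₀ hs, one_pow, one_mul]
        rw [h2]
        exact C.toSubring.mul_mem (C.toSubring.pow_mem hs' n) h1
      · refine adj_le _ _ ?_ ?_
        · rintro ⟨x, n, y, hy⟩
          exact ⟨n, by change _ * x ∈ _; rw [hy]; exact hO' y⟩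
        · intro x hx
          exact le_lk _ _ _ (Algebra.subset_adjoin hx)
    rw [← e]
    exact noeth_lk hN' hsC' hs
  apply reg_of_cover _ hN
  intro Q hQ
  choose J hJ using fun i : Fin p =>
    exists_notMem τ i z d hd F hF hF0 C.toSubring hk (hG i i.2) Q hQ
  have hz' : ∀ j, z j ^ d ∈ MN z d := fun j => by
    refine ⟨fun l => if l = j then d else 0, by simp, ?_⟩
    rw [Finset.prod_eq_single j]
    · simp
    · intro b _ hb
      simp [hb]
    · intro h; exact absurd (Finset.mem_univ j) h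
  set u : K := ∏ i : Fin p, τ^[i] (z (J i) ^ d / F) with hu
  set v : K := ∏ i : Fin p, τ^[i] (F / z (J i) ^ d) with hv
  set B := Algebra.adjoin O {y : K | ∃ (i : Fin p) (l : Fin (m + 1)),
    y = τ^[i] (z l / z (J i))} with hB
  have hO' : ∀ o : O, algebraMap O K o ∈ B.toSubring := fun o => B.algebraMap_mem o
  have hk' : ∀ c : k, algebraMap k K c ∈ B.toSubring := fun c => by
    rw [IsScalarTower.algebraMap_apply k O K]; exact hO' _
  have huC' : ∀ i : Fin p, τ^[i] (z (J i) ^ d / F) ∈ C.toSubring := fun i => hG i i.2 _ (hz' _)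
  have huC : u ∈ C.toSubring := C.toSubring.prod_mem fun i _ => huC' i
  have hxB : ∀ (i : Fin p), ∀ x ∈ MN z d, τ^[i] (x / z (J i) ^ d) ∈ B.toSubring := by
    rintro i x ⟨a, ha, rfl⟩
    have e : (∏ l, z l ^ a l) / z (J i) ^ d = ∏ l, (z l / z (J i)) ^ a l := by
      simp only [div_pow, Finset.prod_div_distrib, Finset.prod_pow_eq_pow_sum, ha]
    rw [e, itk, map_prod]
    refine B.toSubring.prod_mem fun l _ => ?_
    rw [map_pow, ← itk]
    exact B.toSubring.pow_mem (Algebra.subset_adjoin ⟨i, l, rfl⟩) _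
  have hvB' : ∀ i : Fin p, τ^[i] (F / z (J i) ^ d) ∈ B.toSubring := fun i =>
    span_mem τ i z d _ B.toSubring hk' (hxB i) F hF
  have hvB : v ∈ B.toSubring := B.toSubring.prod_mem fun i _ => hvB' i
  have hvu : v * u = 1 := by
    rw [hu, hv, ← Finset.prod_mul_distrib]
    refine Finset.prod_eq_one fun i _ => ?_
    rw [itk, itk, ← map_mul, div_mul_div_comm, mul_comm F, div_self
      (mul_ne_zero (pow_ne_zero _ (hz _)) hF0), map_one]
  refine ⟨u, huC, ?_, ?_⟩
  · intro hmem
    have e : (⟨u, huC⟩ : C.toSubring) = ∏ i : Fin p, ⟨_, huC' i⟩ := by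
      apply Subtype.ext
      rw [SubmonoidClass.coe_finsetProd]
    rw [e] at hmem
    obtain ⟨i, _, hi⟩ := (hQ.prod_mem_iff).1 hmem
    exact hJ i (huC' i) hi
  · have h1 : ∀ y ∈ B.toSubring, y ∈ lk C.toSubring u huC := by
      refine adj_le _ _ (fun o => le_lk _ _ _ (hO o)) ?_
      rintro y ⟨i, l, rfl⟩
      refine ⟨1, ?_⟩
      have e : u ^ 1 * τ^[i] (z l / z (J i)) = τ^[i] (z l * z (J i) ^ (d - 1) / F) *
          ∏ i ∈ Finset.univ.erase i, τ^[i] (z (J i) ^ d / F) := by
        rw [pow_one, hu, ← Finset.mul_prod_erase _ _ (Finset.mem_univ i), mul_right_comm]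
        congr 1
        rw [itk, itk, itk, ← map_mul]
        congr 1
        obtain ⟨d', rfl⟩ : ∃ d', d = d' + 1 := ⟨d - 1, by omega⟩
        rw [Nat.add_sub_cancel]
        have := hz (J i)
        field_simp
        ring
      rw [e]
      refine C.toSubring.mul_mem (hG i i.2 _ ?_) (C.toSubring.prod_mem fun i _ => huC' i)
      refine ⟨fun j => (if j = l then 1 else 0) + (if j = J i then d - 1 else 0), ?_, ?_⟩
      · rw [Finset.sum_add_distrib]
        simp
        omega
      · simp only [pow_add, Finset.prod_mul_distrib]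
        congr 1
        · rw [Finset.prod_eq_single l]
          · rw [if_pos rfl, pow_one]
          · intro b _ hb
            rw [if_neg hb, pow_zero]
          · intro h; exact absurd (Finset.mem_univ l) h
        · rw [Finset.prod_eq_single (J i)]
          · rw [if_pos rfl]
          · intro b _ hb
            rw [if_neg hb, pow_zero]
          · intro h; exact absurd (Finset.mem_univ (J i)) h
    have h2 : ∀ c ∈ C.toSubring, c ∈ lk B.toSubring (algebraMap k K s * v)
        (B.toSubring.mul_mem (hk' s) hvB) := by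
      refine adj_le _ _ ?_ ?_
      · rintro ⟨x, n, y, hy⟩
        refine ⟨n, ?_⟩
        change _ * x ∈ _
        have e : (algebraMap k K s * v) ^ n * x = v ^ n * (algebraMap k K s ^ n * x) := by ring
        rw [e, hy]
        exact B.toSubring.mul_mem (B.toSubring.pow_mem hvB n) (hO' y)
      · rintro y ⟨i, x, hx, rfl⟩
        refine ⟨1, ?_⟩
        have e : (algebraMap k K s * v) ^ 1 * τ^[i] (x / F) = algebraMap k K s *
            (τ^[i] (x / z (J i) ^ d) * ∏ i ∈ Finset.univ.erase i, τ^[i] (F / z (J i) ^ d)) := by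
          rw [pow_one, mul_assoc]
          congr 1
          rw [hv, ← Finset.mul_prod_erase _ _ (Finset.mem_univ i), mul_right_comm]
          congr 1
          rw [itk, itk, itk, ← map_mul]
          congr 1
          have := hz (J i)
          field_simp
        rw [e]
        exact B.toSubring.mul_mem (hk' s) (B.toSubring.mul_mem (hxB i x hx)
          (B.toSubring.prod_mem fun i _ => hvB' i))
    rw [lk_eq B.toSubring C.toSubring u v (algebraMap k K s) huC hvB (hk' s) hs' hs hvu h1 h2]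
    exact reg_lk (B := B.toSubring) (hreg J) _ (mul_ne_zero hs (right_ne_zero_of_mul
      (a := u) (by rw [mul_comm, hvu]; exact one_ne_zero)))

end forms

end Pool.Agent.Y177.G
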